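import Mathlib
import Pool.Agent.MP_91e814_lc.Defs
import Pool.Agent.MP_91e814_lc.Main

/-!
Two-variable tabularity implies local tabularity for all polymodal logics each of whose boxes
either has bounded alternativity or is transitive of finite width (or transitive and euclidean).
-/

namespace Pool.Agent.Results.MP_91e814_lc.FiniteWidth

open MP91e814

/-- Let `L` be a normal modal logic in finitely many boxes. Suppose that for every box `m`, the
logic `L` contains `alt_n` for some `n`, or contains `4` together with the axiom of width at
most `n` for some `n`, or contains `4` and `5`. If `L` is 2-tabular, then `L` is locally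
tabular. -/
theorem result {ι : Type} [Finite ι] (L : Set (Form ι ℕ)) (hL : IsNormalLogic L)
    (h : ∀ m : ι, (∃ n, altAx m n ∈ L) ∨
      (fourAx m ∈ L ∧ ((∃ n, widthAx m n ∈ L) ∨ fiveAx m ∈ L)))
    (h2 : Tabular L 2) : LocallyTabular L := by
  intro k
  obtain ⟨M, hM⟩ := exists_bd hL h2
  have := finite_world hL (hM (Fin k)) h
  exact tabular_of_finite hL k

end Pool.Agent.Results.MP_91e814_lc.FiniteWidth
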