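import Pool.Agent.MP_91e814_lc.Defs
import Pool.Agent.MP_91e814_lc.BPFinal
import Pool.Agent.MP_91e814_lc.BPTwin
import Pool.Agent.MP_91e814_lc.BPTab
import Pool.Agent.MP_91e814_lc.BPNot

/-!
A normal unimodal logic that is 2-tabular but not locally tabular.
-/

open MP91e814 MP91e814.BP

/-- There is a normal unimodal logic `L` that is 2-tabular (up to `L`-equivalence there are only
finitely many formulas in two variables) but not locally tabular. -/
theorem Pool.Agent.Results.MP_91e814_lc.NotLocallyTabular.result :
    ∃ L : Set (Form Unit ℕ), IsNormalLogic L ∧ Tabular L 2 ∧ ¬ LocallyTabular L := by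
  obtain ⟨t, M, ht, hM⟩ := class_bound
  exact ⟨LogOf fun n => YR t n, logOf_normal _,
    tabular_of_bounded _ (4 * 2 ^ M) fun n F k A hA => twin_bound ht hM n F k A hA,
    not_locallyTabular ht⟩
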